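import Pool.Agent.H365.TF.Stm2

/-! Project TF (helper365), task 14439: `S_OM1`. -/

set_option autoImplicit false

namespace Pool.Agent.H365.TF

namespace OM1

open MonoidAlgebra

/-- the augmentation ideal of the group algebra of a finite `ℓ`-group is nilpotent -/
theorem aug_nil (ℓ : ℕ) [Fact ℓ.Prime] (Q : Type) [CommGroup Q] [Finite Q] (hQ : IsPGroup ℓ Q) :
    ∃ n : ℕ, aug (ZMod ℓ) Q ^ n = ⊥ := by
  have hfg : (aug (ZMod ℓ) Q).FG :=
    Submodule.fg_span (Set.finite_range _)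
  have hch : CharP (MonoidAlgebra (ZMod ℓ) Q) ℓ :=
    charP_of_injective_ringHom
      (RingHom.injective (algebraMap (ZMod ℓ) (MonoidAlgebra (ZMod ℓ) Q))) ℓ
  have hle : aug (ZMod ℓ) Q ≤ nilradical (MonoidAlgebra (ZMod ℓ) Q) := by
    unfold aug
    rw [Ideal.span_le]
    rintro x ⟨q, rfl⟩
    obtain ⟨n, hn⟩ := hQ q
    show _ ∈ nilradical _
    rw [mem_nilradical]
    refine ⟨ℓ ^ n, ?_⟩
    rw [sub_pow_char_pow, MonoidAlgebra.single_pow, hn, one_pow, one_pow]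
    exact sub_eq_zero.2 MonoidAlgebra.one_def.symm
  obtain ⟨n, hn⟩ := hfg.isNilpotent_iff_le_nilradical.2 hle
  exact ⟨n, hn⟩

/-- the augmentation ideal is mapped into the augmentation ideal -/
theorem aug_map (ℓ : ℕ) [Fact ℓ.Prime] (L Q : Type) [CommGroup L] [CommGroup Q] (φ : L →* Q) :
    Ideal.map (MonoidAlgebra.mapDomainRingHom (ZMod ℓ) φ) (aug (ZMod ℓ) L) ≤ aug (ZMod ℓ) Q := by
  unfold aug
  rw [Ideal.map_span, Ideal.span_le]
  rintro x ⟨y, ⟨l, rfl⟩, rfl⟩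
  refine Ideal.subset_span ⟨φ l, ?_⟩
  have h : MonoidAlgebra.mapDomainRingHom (ZMod ℓ) φ (MonoidAlgebra.single l 1) =
      MonoidAlgebra.single (φ l) 1 := MonoidAlgebra.mapDomain_single
  rw [map_sub, map_one, h]

end OM1

theorem t_OM1 : S_OM1 := by
  intro ℓ _ L _ hL y hy
  by_contra hne
  obtain ⟨Q, _, _, φ, hQ, hinj⟩ := hL y.coeff.support
  obtain ⟨n, hn⟩ := OM1.aug_nil ℓ Q hQ
  have h1 : MonoidAlgebra.mapDomainRingHom (ZMod ℓ) φ y ∈ aug (ZMod ℓ) Q ^ n := by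
    have h2 := Ideal.mem_map_of_mem (MonoidAlgebra.mapDomainRingHom (ZMod ℓ) φ) (hy n)
    rw [Ideal.map_pow] at h2
    exact Ideal.pow_right_mono (OM1.aug_map ℓ L Q φ) n h2
  rw [hn, Ideal.mem_bot] at h1
  have h3 : y.coeff ≠ 0 := fun h => hne (MonoidAlgebra.coeff_eq_zero.1 h)
  obtain ⟨l, hl⟩ := Finsupp.support_nonempty_iff.2 h3
  have h4 : Finsupp.mapDomain φ y.coeff (φ l) = y.coeff l :=
    Finsupp.mapDomain_apply' _ _ (le_refl _) hinj hl
  have h5 : (MonoidAlgebra.mapDomainRingHom (ZMod ℓ) φ y).coeff (φ l) = y.coeff l := h4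
  rw [h1] at h5
  exact (Finsupp.mem_support_iff.1 hl) h5.symm

end Pool.Agent.H365.TF
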